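import Pool.Agent.Q4.Stab.MatDefs

namespace Pool.Agent.Results.MP_e38963_al.AmalgamNotStable

open Q4.Stab

/-- There are operator norm stable countable groups `G₁`, `G₂` and an infinite group `H` embedded
as a central subgroup in both of them such that the amalgamated free product `G₁ *_H G₂` is not
operator norm stable. -/
theorem result :
    ∃ (G₁ G₂ H : Type) (_ : Group G₁) (_ : Group G₂) (_ : Group H)
      (i₁ : H →* G₁) (i₂ : H →* G₂),
      Countable G₁ ∧ Countable G₂ ∧ Infinite H ∧
        Function.Injective i₁ ∧ Function.Injective i₂ ∧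
        (∀ h g, i₁ h * g = g * i₁ h) ∧ (∀ h g, i₂ h * g = g * i₂ h) ∧
        IsOperatorNormStable G₁ ∧ IsOperatorNormStable G₂ ∧
        ¬ IsOperatorNormStable (Amalgam i₁ i₂) :=
  ⟨Heis, Heis, Q4.Stab.H, inferInstance, inferInstance, inferInstance, ι₁, ι₂,
    inferInstance, inferInstance, inferInstanceAs (Infinite (ℕ →₀ ZMod 2)), ι₁_inj, ι₂_inj,
    fun _ g => heis_central _ g, fun _ g => heis_central _ g, (stable_iff _).2 Heis.stable,
    (stable_iff _).2 Heis.stable, fun h => not_stable ((stable_iff _).1 h)⟩

end Pool.Agent.Results.MP_e38963_al.AmalgamNotStable
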